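import Mathlib
import Pool.Agent.W487.G.Brau
import Pool.Agent.W487.G.Fg

open CategoryTheory Opposite AlgebraicGeometry

set_option backward.isDefEq.respectTransparency false

namespace Pool.Agent.Results.MP_b73640_ag.NotBrauertschFG

open Pool.Agent.W487.G

/-- For odd `n ≥ 3` no field which embeds into the real numbers is `n`-Brauertsch. In particular,
for every `m` there is a field `F`, finitely generated and of transcendence degree `m` over a
perfect subfield `k`, which is not `n`-Brauertsch, and there is even an affine curve `C` over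
`F` with a class of order two in `Hⁿ(C, G_m)` whose restriction to every point of `C` is zero. -/
theorem result (n : ℕ) (hn : Odd n) (h3 : 3 ≤ n) :
    (∀ (F : Type) [Field F], Nonempty (F →+* ℝ) → ¬ IsNBrauertsch n F) ∧
    ∀ m : ℕ, ∃ (F : Type) (_ : Field F) (k : Subfield F), PerfectField k ∧
      (⊤ : IntermediateField k F).FG ∧ Algebra.trdeg k F = m ∧ ¬ IsNBrauertsch n F ∧
      ∃ C : Over (Spec (.of F)), IsCurve C ∧ IsAffine C.left ∧ HasDeadClass C n := by
  refine ⟨fun F _ ⟨φ⟩ => not_brauertsch F φ hn h3, fun m => ?_⟩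
  obtain ⟨F, hF, k, hk, hfg, htr, ⟨φ⟩⟩ := exists_fg m
  exact ⟨F, hF, k, hk, hfg, htr, not_brauertsch F φ hn h3, curve_dead F φ hn h3⟩

end Pool.Agent.Results.MP_b73640_ag.NotBrauertschFG
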